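import Pool.Agent.Y448.RZ.Half
import Pool.Agent.Y667.QK.Stm

/-!
# Project QK: the primes with two bad signs have density at most one half
-/

set_option autoImplicit false

namespace Pool.Agent.Y665.QK

open Finset Pool.Agent.W262.RK Pool.Agent.W307.RT Pool.Agent.W307.RS Pool.Agent.W307.SE
  Pool.Agent.W307.FK Pool.Agent.W214.RK2 Pool.Agent.Y667.RP Pool.Agent.Y667.RZ

open Pool.Agent.Y667.QK (twt Lt Vt AdT Tyt)
open Pool.Agent.Y448.RZ (LC Iso VG_one VG_restrict isoLF SolT sol_of_ram sol_third sgn_one dv_one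
  mem_iff_of_inter half_card)

open NumberTheorySymbols

/-! ### admissible twists -/

lemma adT_dvd {τ τ' : ℕ} (h : AdT τ) (hd : τ' ∣ τ) : AdT τ' := by
  have h0 : τ ≠ 0 := h.sqf.ne_zero
  have hsub : ∀ q ∈ τ'.primeFactors, q ∈ τ.primeFactors := fun q hq =>
    Nat.primeFactors_mono hd h0 hq
  exact ⟨h.sqf.squarefree_of_dvd hd, fun q hq => h.m8 q (hsub q hq),
    fun q hq q' hq' => h.res q (hsub q hq) q' (hsub q' hq')⟩

lemma adT_mod {τ : ℕ} (h : AdT τ) : τ % 8 = 1 := by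
  have h1 := Nat.prod_primeFactors_of_squarefree h.sqf
  have h2 : (∏ p ∈ τ.primeFactors, p) % 8 = (∏ p ∈ τ.primeFactors, p % 8) % 8 :=
    Finset.prod_nat_mod _ _ _
  rw [h1, prod_congr rfl (fun p hp => h.m8 p hp), prod_const_one] at h2
  exact h2

lemma adT_odd {τ : ℕ} (h : AdT τ) : Odd τ := by
  have := adT_mod h
  exact Nat.odd_iff.2 (by omega)

/-! ### the local conditions -/

lemma xcb (c : Bool) : XC (fun v _ h g => h = false ∧ g = (v && c)) := by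
  refine ⟨⟨rfl, rfl⟩, ?_⟩
  rintro a b c' d a' b' c'' d' ⟨rfl, rfl⟩ ⟨rfl, rfl⟩
  refine ⟨rfl, ?_⟩
  revert a a' c
  decide

lemma xcLt (f τ : ℕ) (s : Fin 3 → ℕ) (E : Finset ℕ) (q : ℕ) : XC (Lt f τ s E q) := by
  by_cases h : q ∣ τ
  · refine ⟨?_, ?_⟩
    · unfold Lt
      rw [if_pos h]
      exact (xcb _).1
    · intro a b c d a' b' c' d' h1 h2
      unfold Lt at h1 h2 ⊢
      rw [if_pos h] at h1 h2 ⊢
      exact (xcb _).2 a b c d a' b' c' d' h1 h2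
  · refine ⟨?_, ?_⟩
    · unfold Lt
      rw [if_neg h]
      exact (xcLF s _ q).1
    · intro a b c d a' b' c' d' h1 h2
      unfold Lt at h1 h2 ⊢
      rw [if_neg h] at h1 h2 ⊢
      exact (xcLF s _ q).2 a b c d a' b' c' d' h1 h2

lemma sgm1 {q : ℕ} (h : q % 8 = 1) : sg0 q (-1) = false := by
  unfold sg0
  rw [decide_eq_false_iff_not]
  have h1 : jacobiSym (-1) q = 1 := by
    rw [jacobiSym.at_neg_one (Nat.odd_iff.2 (by omega))]
    exact ZMod.χ₄_nat_one_mod_four (by omega)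
  rw [h1]
  norm_num

lemma pft {τ m q : ℕ} (hq : q ∈ (τ * m).primeFactors) (h : ¬ q ∣ τ) : q ∈ m.primeFactors := by
  rw [Nat.mem_primeFactors] at hq ⊢
  obtain ⟨h1, h2, h3⟩ := hq
  refine ⟨h1, ?_, fun h0 => h3 (by rw [h0, mul_zero])⟩
  rcases (h1.dvd_mul).1 h2 with h4 | h4
  · exact absurd h4 h
  · exact h4

lemma isoLt {f τ : ℕ} (hτ : AdT τ) {s : Fin 3 → ℕ} {E : Finset ℕ} {q : ℕ}
    (hq : q ∈ (τ * ∏ j, s j).primeFactors) : Iso q (Lt f τ s E q) := by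
  by_cases h : q ∣ τ
  · have hq8 := hτ.m8 q (Nat.mem_primeFactors.2 ⟨Nat.prime_of_mem_primeFactors hq, h,
      hτ.sqf.ne_zero⟩)
    intro v w hh g v' w' h' g' h1 h2
    unfold Lt at h1 h2
    rw [if_pos h] at h1 h2
    obtain ⟨rfl, rfl⟩ := h1
    obtain ⟨rfl, rfl⟩ := h2
    rw [sgm1 hq8]
    generalize decide (q = f) = c
    revert v w v' w' c
    decide
  · intro v w h' g v' w' h'' g' h1 h2
    unfold Lt at h1 h2
    rw [if_neg h] at h1 h2
    exact isoLF (pft hq h) _ _ _ _ _ _ _ _ h1 h2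

section upd

variable {f τ : ℕ} {s : Fin 3 → ℕ} {j : Fin 3} {p : ℕ} {E E' : Finset ℕ}

lemma twt_iff (hs : (∏ j, s j) ≠ 0) (hp : p.Prime)
    (hE : E' ∩ (∏ j, s j).primeFactors = E ∩ (∏ j, s j).primeFactors) {q : ℕ}
    (hq : q ∈ (∏ j, s j).primeFactors) :
    q ∈ twt τ (∏ l, Function.update s j (s j * p) l) E' ↔ q ∈ twt τ (∏ j, s j) E := by
  unfold twt
  rw [mem_filter, mem_filter, upd_prod, mem_iff_of_inter hE hq]
  constructor
  · rintro ⟨_, h⟩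
    exact ⟨hq, h⟩
  · rintro ⟨_, h⟩
    refine ⟨?_, h⟩
    rw [Nat.mem_primeFactors] at hq ⊢
    exact ⟨hq.1, hq.2.1.mul_right _, mul_ne_zero hs hp.ne_zero⟩

lemma downLt (hs : (∏ j, s j) ≠ 0) (hp : p.Prime)
    (hE : E' ∩ (∏ j, s j).primeFactors = E ∩ (∏ j, s j).primeFactors) :
    ∀ q ∈ (τ * ∏ j, s j).primeFactors, ∀ v w h g,
      Lt f τ (Function.update s j (s j * p)) E' q v w h g → Lt f τ s E q v w h g := by
  intro q hq v w h g hL
  unfold Lt at hL ⊢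
  split_ifs at hL ⊢ with h17
  · exact hL
  · exact LF_congr (twt_iff hs hp hE (pft hq h17)) (LF_down hL)

lemma newLt (hpτ : ¬ p ∣ τ) : ∀ v w h g, Lt f τ (Function.update s j (s j * p)) E' p v w h g →
    LR j (decide (p ∈ twt τ (∏ l, Function.update s j (s j * p) l) E')) v w h g := by
  intro v w h g hL
  unfold Lt at hL
  rw [if_neg hpτ] at hL
  exact LF_new hL

lemma Vt_upd : Vt f τ (Function.update s j (s j * p)) E' =
    VG ((τ * ∏ j, s j) * p) (Lt f τ (Function.update s j (s j * p)) E') := by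
  unfold Vt
  rw [upd_prod, mul_assoc]

end upd

/-- a bad sign at the new prime `q` gives a solution -/
lemma ram_data {f τ : ℕ} {s : Fin 3 → ℕ} {E F : Finset ℕ} {q : ℕ} (hτ : AdT τ)
    (hs : Squarefree (∏ j, s j)) (hE : E ⊆ (∏ j, s j).primeFactors)
    (hV : Vt f τ s E = {(1, 1)}) (hq : q.Prime) (hqs : ¬ q ∣ 2 * (τ * ∏ j, s j))
    (hF : F = E ∨ F = insert q E) (hne : Vt f τ (Function.update s 2 (s 2 * q)) F ≠ {(1, 1)}) :
    ∃ x, SolT (τ * ∏ j, s j) (Lt f τ s E) q x ∧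
      sgn q x.1 = xor (decide (q ∈ F)) (sg0 q (τ : ℤ)) := by
  classical
  have hqτ : ¬ q ∣ τ := fun h => hqs ((h.mul_right _).mul_left _)
  have hqm : ¬ q ∣ ∏ j, s j := fun h => hqs ((h.mul_left _).mul_left _)
  have hM : τ * ∏ j, s j ≠ 0 := mul_ne_zero hτ.sqf.ne_zero hs.ne_zero
  have hqM : ¬ q ∣ τ * ∏ j, s j := fun h => hqs (h.mul_left _)
  have hE3 : F ∩ (∏ j, s j).primeFactors = E ∩ (∏ j, s j).primeFactors := by
    rcases hF with rfl | rfl
    · rfl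
    · rw [insert_inter_of_notMem]
      exact fun h => hqm (Nat.dvd_of_mem_primeFactors h)
  have hpm' : q ∈ (∏ l, Function.update s 2 (s 2 * q) l).primeFactors := by
    rw [upd_prod, Nat.mem_primeFactors]
    exact ⟨hq, dvd_mul_left _ _, mul_ne_zero hs.ne_zero hq.ne_zero⟩
  have hex : ∃ d ∈ Vt f τ (Function.update s 2 (s 2 * q)) F, d ≠ (1, 1) := by
    by_contra h
    push Not at h
    apply hne
    ext d
    rw [Set.mem_singleton_iff]
    exact ⟨h d, by rintro rfl; exact VG_one (fun q _ => xcLt f τ _ _ q)⟩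
  obtain ⟨d, hd, hd1⟩ := hex
  rw [Vt_upd] at hd
  obtain ⟨x, hx, hx'⟩ := sol_of_ram hM hq hqM (downLt (f := f) (τ := τ) hs.ne_zero hq hE3)
    (newLt hqτ) hd (by
      intro h
      have h3 := VG_restrict hM hq (downLt (f := f) (τ := τ) hs.ne_zero hq hE3) hd h.1 h.2
      have h4 : d ∈ Vt f τ s E := h3
      rw [hV, Set.mem_singleton_iff] at h4
      exact hd1 h4)
  refine ⟨x, hx, ?_⟩
  rw [hx']
  have h17' : sg0 q (τ : ℤ) = decide (jacobiSym τ q = -1) := rfl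
  rw [h17']
  have e : (q ∈ twt τ (∏ l, Function.update s 2 (s 2 * q) l) F) ↔
      ¬ (q ∈ F ↔ jacobiSym τ q = -1) := by
    unfold twt
    rw [mem_filter]
    simp only [hpm', true_and]
  by_cases h1 : q ∈ F <;> by_cases h2 : jacobiSym τ q = -1 <;> simp [e, h1, h2]

/-- at least one sign is good -/
lemma one_good {f τ : ℕ} (hNG : Pool.Agent.Y667.QK.St_NG) {s : Fin 3 → ℕ} {E : Finset ℕ} {q : ℕ}
    (hτ : AdT τ) (hs : Squarefree (∏ j, s j)) (hodd : Odd (∏ j, s j))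
    (hcop : Nat.Coprime τ (∏ j, s j)) (hE : E ⊆ (∏ j, s j).primeFactors)
    (hV : Vt f τ s E = {(1, 1)}) (hq : q.Prime) (hqs : ¬ q ∣ 2 * (τ * ∏ j, s j)) :
    ¬ (Vt f τ (Function.update s 2 (s 2 * q)) E ≠ {(1, 1)} ∧
      Vt f τ (Function.update s 2 (s 2 * q)) (insert q E) ≠ {(1, 1)}) := by
  have hqτ : ¬ q ∣ τ := fun h => hqs ((h.mul_right _).mul_left _)
  have hqm : ¬ q ∣ ∏ j, s j := fun h => hqs ((h.mul_left _).mul_left _)
  have hq2 : q ≠ 2 := by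
    rintro rfl
    exact hqs (dvd_mul_right _ _)
  rintro ⟨h1, h2⟩
  rcases (hNG f τ s E q 2 hτ hs hodd hcop hE hq hq2 hqτ hqm).1 with h | h
  · apply h1
    rw [hV] at h
    exact Set.Subset.antisymm h
      (Set.singleton_subset_iff.2 (VG_one (fun q _ => xcLt f τ _ _ q)))
  · apply h2
    rw [hV] at h
    exact Set.Subset.antisymm h
      (Set.singleton_subset_iff.2 (VG_one (fun q _ => xcLt f τ _ _ q)))

/-- the symbol of the twist -/
def eps (f t q : ℕ) : Bool := xor (sg0 q (t : ℤ)) (sg0 q ((f * t : ℕ) : ℤ))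

/-- the data of a prime with two bad signs -/
lemma tyt_data {f t : ℕ} (hNG : Pool.Agent.Y667.QK.St_NG) {s : Fin 3 → ℕ} {E : Finset ℕ} {q : ℕ}
    (hτ : AdT (f * t)) (hs : Squarefree (∏ j, s j)) (hodd : Odd (∏ j, s j))
    (hcop : Nat.Coprime (f * t) (∏ j, s j)) (hE : E ⊆ (∏ j, s j).primeFactors)
    (hV0 : Vt f t s E = {(1, 1)}) (hV1 : Vt f (f * t) s E = {(1, 1)}) (hq : q.Prime)
    (hqs : ¬ q ∣ 2 * (f * t * ∏ j, s j)) (hT : Tyt f t s E q) :
    ∃ x y, SolT (t * ∏ j, s j) (Lt f t s E) q x ∧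
      SolT (f * t * ∏ j, s j) (Lt f (f * t) s E) q y ∧
      xor (sgn q x.1) (xor (sgn q y.1) (eps f t q)) = true := by
  classical
  have ht : AdT t := adT_dvd hτ (dvd_mul_left _ _)
  have hcop0 : Nat.Coprime t (∏ j, s j) := hcop.coprime_dvd_left (dvd_mul_left _ _)
  have hqs0 : ¬ q ∣ 2 * (t * ∏ j, s j) := by
    intro h
    apply hqs
    refine h.trans ⟨f, by ring⟩
  have hqm : ¬ q ∣ ∏ j, s j := fun h => hqs ((h.mul_left _).mul_left _)
  have hqE : q ∉ E := fun h => hqm (Nat.dvd_of_mem_primeFactors (hE h))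
  have N0 := one_good (f := f) hNG ht hs hodd hcop0 hE hV0 hq hqs0
  have N1 := one_good (f := f) hNG hτ hs hodd hcop hE hV1 hq hqs
  obtain ⟨T1, T2⟩ := hT
  have hfin : ∀ F F' : Finset ℕ, (F = E ∧ F' = insert q E) ∨ (F = insert q E ∧ F' = E) →
      Vt f t (Function.update s 2 (s 2 * q)) F ≠ {(1, 1)} →
      Vt f (f * t) (Function.update s 2 (s 2 * q)) F' ≠ {(1, 1)} → ∃ x y,
      SolT (t * ∏ j, s j) (Lt f t s E) q x ∧ SolT (f * t * ∏ j, s j) (Lt f (f * t) s E) q y ∧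
      xor (sgn q x.1) (xor (sgn q y.1) (eps f t q)) = true := by
    intro F F' hF h1 h2
    obtain ⟨x, hx, hx'⟩ := ram_data ht hs hE hV0 hq hqs0 (hF.imp (fun h => h.1) (fun h => h.1)) h1
    obtain ⟨y, hy, hy'⟩ := ram_data hτ hs hE hV1 hq hqs
      (hF.symm.imp (fun h => h.2) (fun h => h.2)) h2
    refine ⟨x, y, hx, hy, ?_⟩
    rw [hx', hy']
    unfold eps
    have e1 : decide (q ∈ E) = false := decide_eq_false hqE
    have e2 : decide (q ∈ insert q E) = true := decide_eq_true (mem_insert_self _ _)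
    rcases hF with ⟨rfl, rfl⟩ | ⟨rfl, rfl⟩
    · rw [e1, e2]
      generalize sg0 q (t : ℤ) = a
      generalize sg0 q ((f * t : ℕ) : ℤ) = b
      revert a b; decide
    · rw [e1, e2]
      generalize sg0 q (t : ℤ) = a
      generalize sg0 q ((f * t : ℕ) : ℤ) = b
      revert a b; decide
  rcases T1 with h1 | h1
  · rcases T2 with h2 | h2
    · exact absurd ⟨h1, h2⟩ N0
    · exact hfin E (insert q E) (Or.inl ⟨rfl, rfl⟩) h1 h2
  · rcases T2 with h2 | h2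
    · exact hfin (insert q E) E (Or.inr ⟨rfl, rfl⟩) h2 h1
    · exact absurd ⟨h1, h2⟩ N1

/-- the symbols of an admissible twist are multiplicative -/
lemma sg0_mul' {τ q1 q2 q3 : ℕ} (hτ : AdT τ) (hq1 : q1.Prime) (hq2 : q2.Prime) (hq3 : q3.Prime)
    (h1 : ¬ q1 ∣ 2 * τ) (h2 : ¬ q2 ∣ 2 * τ) (h3 : ¬ q3 ∣ 2 * τ) (h123 : q3 ≡ q1 * q2 [MOD τ]) :
    sg0 q3 (τ : ℤ) = xor (sg0 q1 (τ : ℤ)) (sg0 q2 (τ : ℤ)) := by
  have J : ∀ q : ℕ, q.Prime → ¬ q ∣ 2 * τ → sg (sg0 q (τ : ℤ)) = J(q | τ) := by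
    intro q hq h
    have k1 : ¬ (q : ℤ) ∣ (τ : ℤ) := by
      rw [Int.natCast_dvd_natCast]
      exact fun h' => h (h'.mul_left _)
    have k2 : Odd q := hq.odd_of_ne_two (by
      rintro rfl
      exact h (dvd_mul_right _ _))
    rw [sg_sg0 hq k1]
    exact jacobiSym.quadratic_reciprocity_one_mod_four (a := τ) (by
      have := adT_mod hτ
      omega) k2
  have e17 : J(q3 | τ) = J(q1 | τ) * J(q2 | τ) := by
    rw [← jacobiSym.mul_left, jacobiSym.mod_left (q3 : ℤ), jacobiSym.mod_left ((q1 : ℤ) * q2)]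
    congr 1
    have h5 : ((q3 : ℕ) : ℤ) ≡ ((q1 * q2 : ℕ) : ℤ) [ZMOD ((τ : ℕ) : ℤ)] :=
      (Int.natCast_modEq_iff).2 h123
    rw [Nat.cast_mul] at h5
    exact h5
  rw [← J q1 hq1 h1, ← J q2 hq2 h2, ← J q3 hq3 h3] at e17
  revert e17
  generalize sg0 q1 (τ : ℤ) = a
  generalize sg0 q2 (τ : ℤ) = b
  generalize sg0 q3 (τ : ℤ) = c
  revert a b c
  decide

/-- the primes with two bad signs lie in at most half of the classes -/
theorem TYPEt (hNG : Pool.Agent.Y667.QK.St_NG) {f t : ℕ} {s : Fin 3 → ℕ} {E : Finset ℕ}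
    (hτ : AdT (f * t)) (hs : Squarefree (∏ j, s j)) (hodd : Odd (∏ j, s j))
    (hcop : Nat.Coprime (f * t) (∏ j, s j)) (hE : E ⊆ (∏ j, s j).primeFactors)
    (hV0 : Vt f t s E = {(1, 1)}) (hV1 : Vt f (f * t) s E = {(1, 1)}) {q1 q2 q3 : ℕ}
    (hq1 : q1.Prime) (hq2 : q2.Prime) (hq3 : q3.Prime) (h1 : ¬ q1 ∣ 2 * (f * t * ∏ j, s j))
    (h2 : ¬ q2 ∣ 2 * (f * t * ∏ j, s j)) (h3 : ¬ q3 ∣ 2 * (f * t * ∏ j, s j))
    (h123 : q3 ≡ q1 * q2 [MOD 8 * (f * t) * ∏ j, s j]) :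
    ¬ (Tyt f t s E q1 ∧ Tyt f t s E q2 ∧ Tyt f t s E q3) := by
  rintro ⟨T1, T2, T3⟩
  have ht : AdT t := adT_dvd hτ (dvd_mul_left _ _)
  obtain ⟨x1, y1, hx1, hy1, e1⟩ := tyt_data hNG hτ hs hodd hcop hE hV0 hV1 hq1 h1 T1
  obtain ⟨x2, y2, hx2, hy2, e2⟩ := tyt_data hNG hτ hs hodd hcop hE hV0 hV1 hq2 h2 T2
  obtain ⟨x3, y3, hx3, hy3, e3⟩ := tyt_data hNG hτ hs hodd hcop hE hV0 hV1 hq3 h3 T3
  have hM0 : t * ∏ j, s j ≠ 0 := mul_ne_zero ht.sqf.ne_zero hs.ne_zero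
  have hM1 : f * t * ∏ j, s j ≠ 0 := mul_ne_zero hτ.sqf.ne_zero hs.ne_zero
  have ho0 : Odd (t * ∏ j, s j) := (adT_odd ht).mul hodd
  have ho1 : Odd (f * t * ∏ j, s j) := (adT_odd hτ).mul hodd
  have c1 : ∀ q : ℕ, ¬ q ∣ 2 * (f * t * ∏ j, s j) → ¬ q ∣ 2 * (t * ∏ j, s j) := by
    intro q h h'
    exact h (h'.trans ⟨f, by ring⟩)
  have c2 : ∀ q : ℕ, ¬ q ∣ 2 * (f * t * ∏ j, s j) → ¬ q ∣ 2 * t := by
    intro q h h'
    exact h (h'.trans ⟨f * ∏ j, s j, by ring⟩)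
  have c3 : ∀ q : ℕ, ¬ q ∣ 2 * (f * t * ∏ j, s j) → ¬ q ∣ 2 * (f * t) := by
    intro q h h'
    exact h (h'.trans ⟨∏ j, s j, by ring⟩)
  have m1 : q3 ≡ q1 * q2 [MOD t * ∏ j, s j] := h123.of_dvd ⟨8 * f, by ring⟩
  have m2 : q3 ≡ q1 * q2 [MOD f * t * ∏ j, s j] := h123.of_dvd ⟨8, by ring⟩
  have m3 : q3 ≡ q1 * q2 [MOD t] := h123.of_dvd ⟨8 * f * ∏ j, s j, by ring⟩
  have m4 : q3 ≡ q1 * q2 [MOD f * t] := h123.of_dvd ⟨8 * ∏ j, s j, by ring⟩
  have R1 := sol_third hM0 ho0 (fun p _ => xcLt f t s E p) (fun p hp => isoLt ht hp) hV0 hq1 hq2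
    hq3 (c1 q1 h1) (c1 q2 h2) (c1 q3 h3) m1 hx1 hx2 hx3
  have R2 := sol_third hM1 ho1 (fun p _ => xcLt f (f * t) s E p) (fun p hp => isoLt hτ hp) hV1
    hq1 hq2 hq3 h1 h2 h3 m2 hy1 hy2 hy3
  have S1 := sg0_mul' ht hq1 hq2 hq3 (c2 q1 h1) (c2 q2 h2) (c2 q3 h3) m3
  have S2 := sg0_mul' hτ hq1 hq2 hq3 (c3 q1 h1) (c3 q2 h2) (c3 q3 h3) m4
  have S3 : eps f t q3 = xor (eps f t q1) (eps f t q2) := by
    unfold eps
    rw [S1, S2]
    generalize sg0 q1 (t : ℤ) = a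
    generalize sg0 q2 (t : ℤ) = b
    generalize sg0 q1 ((f * t : ℕ) : ℤ) = c
    generalize sg0 q2 ((f * t : ℕ) : ℤ) = d
    revert a b c d
    decide
  by_cases h12 : q1 = q2
  · rw [R1.1 h12, R2.1 h12, S3, h12, Bool.xor_self] at e3
    exact absurd e3 (by decide)
  · rw [R1.2 h12, R2.2 h12, S3] at e3
    revert e1 e2 e3
    generalize sgn q1 x1.1 = a1
    generalize sgn q1 y1.1 = a2
    generalize eps f t q1 = a3
    generalize sgn q2 x2.1 = b1
    generalize sgn q2 y2.1 = b2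
    generalize eps f t q2 = b3
    revert a1 a2 a3 b1 b2 b3
    decide

theorem HALFt (hNG : Pool.Agent.Y667.QK.St_NG) : Pool.Agent.Y667.QK.St_HALFt := by
  classical
  intro f t X s E _ hτ hs hodd hcop hE hV0 hV1 hX
  set m := ∏ j, s j with hm
  set M := 8 * (f * t) * m with hMdef
  have hm0 : m ≠ 0 := hs.ne_zero
  have hft0 : f * t ≠ 0 := hτ.sqf.ne_zero
  have hM0 : 0 < M := by
    rw [hMdef]
    exact Nat.mul_pos (Nat.mul_pos (by norm_num) (Nat.pos_of_ne_zero hft0))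
      (Nat.pos_of_ne_zero hm0)
  set R := (range M).filter (fun a => a.Coprime M) with hR
  set T := R.filter (fun a => ∃ q ∈ Pt X, q % M = a ∧ Tyt f t s E q) with hT
  have hRcard : R.card = M.totient := by
    rw [Nat.totient_eq_card_coprime, hR]
    congr 1
    ext a
    simp only [mem_filter, Nat.coprime_comm]
  have hPt : ∀ q ∈ Pt X, q.Prime ∧ ¬ q ∣ 2 * (f * t * m) ∧ q.Coprime M ∧ (1 : ℝ) ≤ q := by
    intro q hq
    unfold Pt at hq
    rw [mem_filter] at hq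
    obtain ⟨_, hqp, hq1, _⟩ := hq
    have h1 : M < q := by
      have h2 : (M : ℝ) < q := by
        refine lt_of_lt_of_le ?_ hq1
        rw [hMdef]
        push_cast
        exact hX
      exact_mod_cast h2
    have h2 : ¬ q ∣ M := fun h => absurd (Nat.le_of_dvd hM0 h) (by omega)
    refine ⟨hqp, ?_, (Nat.Prime.coprime_iff_not_dvd hqp).2 h2, by exact_mod_cast hqp.one_le⟩
    intro h
    apply h2
    rw [hMdef]
    exact h.trans ⟨4, by ring⟩
  have hTR : T ⊆ R := filter_subset _ _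
  have hno : ∀ a ∈ T, ∀ b ∈ T, a * b % M ∉ T := by
    intro a ha b hb hc
    rw [hT, mem_filter] at ha hb hc
    obtain ⟨-, q1, hq1, h1, t1⟩ := ha
    obtain ⟨-, q2, hq2, h2, t2⟩ := hb
    obtain ⟨-, q3, hq3, h3, t3⟩ := hc
    obtain ⟨p1, d1, -⟩ := hPt q1 hq1
    obtain ⟨p2, d2, -⟩ := hPt q2 hq2
    obtain ⟨p3, d3, -⟩ := hPt q3 hq3
    refine TYPEt hNG hτ hs hodd hcop hE hV0 hV1 p1 p2 p3 d1 d2 d3 ?_ ⟨t1, t2, t3⟩
    show q3 % M = (q1 * q2) % M
    rw [h3, Nat.mul_mod q1 q2, h1, h2]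
  have hcard := half_card hM0 T hTR hno
  -- the sums
  set L := ∑ q ∈ Pt X, 1 / ((q : ℝ) - 1) with hL
  have hL0 : 0 ≤ L := sum_nonneg fun q hq => by
    have := (hPt q hq).2.2.2
    exact div_nonneg zero_le_one (by linarith)
  have hφ : (0 : ℝ) < M.totient := by exact_mod_cast Nat.totient_pos.2 hM0
  have hmaps : ∀ q ∈ (Pt X).filter (fun q => Tyt f t s E q), q % M ∈ T := by
    intro q hq
    rw [mem_filter] at hq
    rw [hT, mem_filter, hR, mem_filter, mem_range]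
    refine ⟨⟨Nat.mod_lt _ hM0, ?_⟩, q, hq.1, rfl, hq.2⟩
    have := (hPt q hq.1).2.2.1
    show Nat.gcd (q % M) M = 1
    rw [← Nat.gcd_rec, Nat.gcd_comm]
    exact this
  calc ∑ q ∈ (Pt X).filter (fun q => Tyt f t s E q), 1 / ((q : ℝ) - 1)
      = ∑ a ∈ T, ∑ q ∈ ((Pt X).filter (fun q => Tyt f t s E q)).filter (fun q => q % M = a),
          1 / ((q : ℝ) - 1) := (sum_fiberwise_of_maps_to hmaps _).symm
    _ ≤ ∑ a ∈ T, (L / M.totient + |∑ q ∈ (Pt X).filter (fun q => q % M = a), 1 / ((q : ℝ) - 1) -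
          L / M.totient|) := by
        refine sum_le_sum fun a _ => ?_
        have h1 : ∑ q ∈ ((Pt X).filter (fun q => Tyt f t s E q)).filter (fun q => q % M = a),
            1 / ((q : ℝ) - 1) ≤ ∑ q ∈ (Pt X).filter (fun q => q % M = a), 1 / ((q : ℝ) - 1) := by
          apply sum_le_sum_of_subset_of_nonneg
          · intro q hq
            rw [mem_filter, mem_filter] at hq
            rw [mem_filter]
            exact ⟨hq.1.1, hq.2⟩
          · intro q hq _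
            rw [mem_filter] at hq
            have := (hPt q hq.1).2.2.2
            exact div_nonneg zero_le_one (by linarith)
        have h2 := le_abs_self (∑ q ∈ (Pt X).filter (fun q => q % M = a), 1 / ((q : ℝ) - 1) -
          L / M.totient)
        linarith
    _ = T.card * (L / M.totient) + ∑ a ∈ T,
          |∑ q ∈ (Pt X).filter (fun q => q % M = a), 1 / ((q : ℝ) - 1) - L / M.totient| := by
        rw [sum_add_distrib, sum_const, nsmul_eq_mul]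
    _ ≤ L / 2 + Dsc X M := by
        apply add_le_add
        · rw [← mul_div_assoc, div_le_iff₀ hφ]
          have h3 : (2 : ℝ) * T.card ≤ M.totient := by exact_mod_cast hcard
          nlinarith
        · unfold Dsc
          exact sum_le_sum_of_subset_of_nonneg hTR fun _ _ _ => abs_nonneg _

end Pool.Agent.Y665.QK
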